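import Pool.Agent.H84.CpPi

namespace Pool.Agent.Results.MP_c0a969_gt.AlephOne

open Cardinal

theorem result (X : Type) [TopologicalSpace X] [T2Space X] [CompactSpace X]
    (hs : ∀ s : Set X, s.Nonempty → ∃ x ∈ s, ∃ U : Set X, IsOpen U ∧ U ∩ s = {x})
    (hX : #X ≤ aleph 1) :
    ∃ 𝓑 : Set (Set C(X, ℝ)),
      (∀ B ∈ 𝓑, @IsOpen C(X, ℝ)
        (TopologicalSpace.induced (fun f : C(X, ℝ) => (f : X → ℝ)) inferInstance) B ∧ B.Nonempty) ∧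
      (∀ U : Set C(X, ℝ), @IsOpen C(X, ℝ)
        (TopologicalSpace.induced (fun f : C(X, ℝ) => (f : X → ℝ)) inferInstance) U →
          U.Nonempty → ∃ B ∈ 𝓑, B ⊆ U) ∧
      (∀ f : C(X, ℝ), {B ∈ 𝓑 | f ∈ B}.Countable) :=
  Pool.Agent.H84.CpPi.main hs hX

end Pool.Agent.Results.MP_c0a969_gt.AlephOne
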